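import Pool.Agent.WeakRoots.Final

set_option autoImplicit false

open Set MeasureTheory Topology
open scoped ENNReal NNReal

namespace Pool.Agent.Results.MP_6562b9_an.WeakTypeRoots

/-- `f` is of class `C^{k,1}` on `[α, β]`: it is `k` times continuously differentiable there
(one sided derivatives at the end points) and its `k`-th derivative is Lipschitz. -/
def MemC (k : ℕ) (f : ℝ → ℂ) (α β : ℝ) : Prop :=
  ContDiffOn ℝ k f (Icc α β) ∧ ∃ L : ℝ, ∀ x ∈ Icc α β, ∀ y ∈ Icc α β,
    ‖iteratedDerivWithin k f (Icc α β) x - iteratedDerivWithin k f (Icc α β) y‖ ≤ L * |x - y|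

/-- The norm of `C^{k,1}([α, β])`: the least number which bounds the sup norms of
`f, f', ..., f^(k)` and which is a Lipschitz constant of `f^(k)`. -/
noncomputable def normC (k : ℕ) (f : ℝ → ℂ) (α β : ℝ) : ℝ :=
  sInf {M : ℝ | (∀ i ≤ k, ∀ x ∈ Icc α β, ‖iteratedDerivWithin i f (Icc α β) x‖ ≤ M) ∧
    ∀ x ∈ Icc α β, ∀ y ∈ Icc α β,
      ‖iteratedDerivWithin k f (Icc α β) x - iteratedDerivWithin k f (Icc α β) y‖ ≤ M * |x - y|}

/-- The quasinorm of the weak Lebesgue space `L^p_w(I)`. -/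
noncomputable def weakNorm (p : ℝ) (f : ℝ → ℂ) (I : Set ℝ) : ℝ≥0∞ :=
  ⨆ s : ℝ, ⨆ _ : 0 < s, ENNReal.ofReal s * (volume {t : ℝ | t ∈ I ∧ s < ‖f t‖}) ^ (1 / p)

/-- The infimum in the definition of the norm is attained. -/
lemma normC_spec {k : ℕ} {f : ℝ → ℂ} {α β : ℝ} (hαβ : α < β) (hf : MemC k f α β) :
    (∀ i ≤ k, ∀ x ∈ Icc α β, ‖iteratedDerivWithin i f (Icc α β) x‖ ≤ normC k f α β) ∧
    ∀ x ∈ Icc α β, ∀ y ∈ Icc α β,
      ‖iteratedDerivWithin k f (Icc α β) x - iteratedDerivWithin k f (Icc α β) y‖ ≤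
        normC k f α β * |x - y| := by
  have hs : UniqueDiffOn ℝ (Icc α β) := uniqueDiffOn_Icc hαβ
  obtain ⟨hf1, L, hL⟩ := hf
  set S : Set ℝ := {M : ℝ | (∀ i ≤ k, ∀ x ∈ Icc α β,
      ‖iteratedDerivWithin i f (Icc α β) x‖ ≤ M) ∧ ∀ x ∈ Icc α β, ∀ y ∈ Icc α β,
      ‖iteratedDerivWithin k f (Icc α β) x - iteratedDerivWithin k f (Icc α β) y‖ ≤ M * |x - y|}
    with hS
  have hbd : ∀ i, ∃ B : ℝ, i ≤ k → ∀ x ∈ Icc α β, ‖iteratedDerivWithin i f (Icc α β) x‖ ≤ B := by
    intro i
    by_cases hi : i ≤ k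
    · have hc : ContinuousOn (iteratedDerivWithin i f (Icc α β)) (Icc α β) :=
        hf1.continuousOn_iteratedDerivWithin (by exact_mod_cast hi) hs
      obtain ⟨B, hB⟩ := isCompact_Icc.exists_bound_of_continuousOn hc
      exact ⟨B, fun _ => hB⟩
    · exact ⟨0, fun h => absurd h hi⟩
  choose B hB using hbd
  have hne : S.Nonempty := by
    refine ⟨max |L| (∑ i ∈ Finset.range (k + 1), |B i|), ?_, ?_⟩
    · intro i hi x hx
      refine (hB i hi x hx).trans ((le_abs_self _).trans ?_)
      refine le_trans ?_ (le_max_right _ _)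
      exact Finset.single_le_sum (f := fun i => |B i|) (fun _ _ => abs_nonneg _)
        (Finset.mem_range.mpr (by omega))
    · intro x hx y hy
      refine (hL x hx y hy).trans ?_
      refine mul_le_mul_of_nonneg_right ?_ (abs_nonneg _)
      exact (le_abs_self L).trans (le_max_left _ _)
  constructor
  · intro i hi x hx
    exact le_csInf hne fun M hM => hM.1 i hi x hx
  · intro x hx y hy
    rcases eq_or_ne x y with h | h
    · subst h
      simp
    · have h1 : 0 < |x - y| := abs_pos.mpr (sub_ne_zero.mpr h)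
      rw [← div_le_iff₀ h1]
      refine le_csInf hne fun M hM => ?_
      rw [div_le_iff₀ h1]
      exact hM.2 x hx y hy

/-- **Weak type integrability of the derivatives of polynomial roots, with an explicit bound.**
Let `n ≥ 2`. There is a constant `C` which depends only on `n` such that for every bounded
interval `(α, β)`, all coefficients `a_1, ..., a_n` in `C^{n-1,1}([α, β])` and every continuous
root `lam` of `Z^n + ∑ a_j Z^(n-j)` on `(α, β)`, the function `lam` is differentiable almost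
everywhere and its derivative lies in the weak Lebesgue space with exponent `n/(n-1)`, with
`‖lam'‖ ≤ C max(1, (β-α)^((n-1)/n)) max_j ‖a_j‖^(1/j)`. -/
theorem result (n : ℕ) (hn : 2 ≤ n) : ∃ C : ℝ, ∀ α β : ℝ, α < β → ∀ a : ℕ → ℝ → ℂ,
    (∀ j ∈ Finset.Icc 1 n, MemC (n - 1) (a j) α β) →
    ∀ lam : ℝ → ℂ, ContinuousOn lam (Ioo α β) →
    (∀ t ∈ Ioo α β, lam t ^ n + ∑ j ∈ Finset.Icc 1 n, a j t * lam t ^ (n - j) = 0) →
    (∀ᵐ t ∂(volume.restrict (Ioo α β)), DifferentiableAt ℝ lam t) ∧
    Measurable (deriv lam) ∧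
    weakNorm ((n : ℝ) / (n - 1)) (deriv lam) (Ioo α β) < ⊤ ∧
    weakNorm ((n : ℝ) / (n - 1)) (deriv lam) (Ioo α β) ≤
      ENNReal.ofReal (C * max 1 ((β - α) ^ (((n : ℝ) - 1) / n)) *
        (Finset.Icc 1 n).sup' (Finset.nonempty_Icc.mpr (by omega : 1 ≤ n))
          (fun j => normC (n - 1) (a j) α β ^ (1 / (j : ℝ)))) := by
  have hn2 : (2 : ℝ) ≤ n := by exact_mod_cast hn
  obtain ⟨C, hC0, hC⟩ := WeakRoots.general_bound hn
  set p : ℝ := (n : ℝ) / (n - 1) with hp
  have hp0 : 0 < p := div_pos (by linarith) (by linarith)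
  have hpinv : 1 / p = ((n : ℝ) - 1) / n := by rw [hp, one_div_div]
  refine ⟨C ^ (1 / p), ?_⟩
  intro α β hαβ a ha lam hlam hroot
  have hne : (Finset.Icc 1 n).Nonempty := Finset.nonempty_Icc.mpr (by omega : 1 ≤ n)
  set R : ℝ := (Finset.Icc 1 n).sup' (Finset.nonempty_Icc.mpr (by omega : 1 ≤ n))
          (fun j => normC (n - 1) (a j) α β ^ (1 / (j : ℝ))) with hR
  have hspec := fun j hj => normC_spec hαβ (ha j hj)
  have hnn : ∀ j ∈ Finset.Icc 1 n, 0 ≤ normC (n - 1) (a j) α β := by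
    intro j hj
    exact (norm_nonneg _).trans ((hspec j hj).1 0 (Nat.zero_le _) α ⟨le_rfl, hαβ.le⟩)
  have hRj : ∀ j ∈ Finset.Icc 1 n, normC (n - 1) (a j) α β ^ (1 / (j : ℝ)) ≤ R := by
    intro j hj
    exact Finset.le_sup' (fun j => normC (n - 1) (a j) α β ^ (1 / (j : ℝ))) hj
  have hR0 : 0 ≤ R := by
    have h1 : (1 : ℕ) ∈ Finset.Icc 1 n := Finset.mem_Icc.mpr ⟨le_rfl, by omega⟩
    exact (Real.rpow_nonneg (hnn 1 h1) _).trans (hRj 1 h1)
  have hle : ∀ j ∈ Finset.Icc 1 n, normC (n - 1) (a j) α β ≤ R ^ j := by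
    intro j hj
    have hj0 : j ≠ 0 := by rw [Finset.mem_Icc] at hj; omega
    have h1 := pow_le_pow_left₀ (Real.rpow_nonneg (hnn j hj) _) (hRj j hj) j
    rwa [← Real.rpow_natCast, ← Real.rpow_mul (hnn j hj), one_div,
      inv_mul_cancel₀ (by exact_mod_cast hj0), Real.rpow_one] at h1
  have hCL : ∀ j ∈ Finset.Icc 1 n, WeakRoots.CL (n - 1) (R ^ j) (a j) (Icc α β) := by
    intro j hj
    have h1 : WeakRoots.CL (n - 1) (normC (n - 1) (a j) α β) (a j) (Icc α β) :=
      ⟨⟨(ha j hj).1, (hspec j hj).2⟩, (hspec j hj).1⟩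
    exact h1.mono (hle j hj)
  have hfin : ∀ x : ℝ, weakNorm p (deriv lam) (Ioo α β) ≤ ENNReal.ofReal x →
      weakNorm p (deriv lam) (Ioo α β) < ⊤ := fun x hx => hx.trans_lt ENNReal.ofReal_lt_top
  have hmeas : Measurable (deriv lam) := measurable_deriv lam
  rcases hR0.eq_or_lt with hR00 | hRpos
  · -- the degenerate case: all coefficients vanish
    have haz : ∀ j ∈ Finset.Icc 1 n, ∀ t ∈ Ioo α β, a j t = 0 := by
      intro j hj t ht
      have hj0 : j ≠ 0 := by rw [Finset.mem_Icc] at hj; omega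
      have h1 := (hCL j hj).norm_le (Ioo_subset_Icc_self ht)
      rw [← hR00, zero_pow hj0] at h1
      exact norm_le_zero_iff.mp h1
    have hlz : ∀ t ∈ Ioo α β, lam t = 0 := by
      intro t ht
      have h1 := hroot t ht
      rw [Finset.sum_eq_zero (fun j hj => by rw [haz j hj t ht, zero_mul]), add_zero] at h1
      exact pow_eq_zero_iff (by omega) |>.mp h1
    have hlocal : ∀ t ∈ Ioo α β, HasDerivAt lam 0 t := by
      intro t ht
      have h1 : HasDerivAt (fun _ : ℝ => (0 : ℂ)) 0 t := hasDerivAt_const t 0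
      refine h1.congr_of_eventuallyEq ?_
      filter_upwards [Ioo_mem_nhds ht.1 ht.2] with s hs
      exact hlz s hs
    have hw : weakNorm p (deriv lam) (Ioo α β) ≤ ENNReal.ofReal (C ^ (1 / p) *
        max 1 ((β - α) ^ (((n : ℝ) - 1) / n)) * R) := by
      refine iSup₂_le fun s hs => ?_
      have : {t : ℝ | t ∈ Ioo α β ∧ s < ‖deriv lam t‖} = ∅ := by
        ext t
        simp only [mem_ofPred_eq, mem_empty_iff_false, iff_false, not_and, not_lt]
        intro ht
        rw [(hlocal t ht).deriv, norm_zero]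
        exact hs.le
      rw [this, measure_empty, ENNReal.zero_rpow_of_pos (by positivity), mul_zero]
      exact bot_le
    refine ⟨?_, hmeas, hfin _ hw, hw⟩
    rw [ae_restrict_iff' measurableSet_Ioo]
    exact Filter.Eventually.of_forall fun t ht => (hlocal t ht).differentiableAt
  · obtain ⟨h1, h2⟩ := hC R hRpos α β hαβ a hCL lam hlam hroot
    have hw : weakNorm p (deriv lam) (Ioo α β) ≤ ENNReal.ofReal (C ^ (1 / p) *
        max 1 ((β - α) ^ (((n : ℝ) - 1) / n)) * R) := by
      refine iSup₂_le fun s hs => ?_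
      have hq : 0 ≤ 1 / p := by positivity
      have hba : 0 < β - α := by linarith
      have h3 : 0 ≤ C * max 1 (β - α) := mul_nonneg hC0 (by positivity)
      have h4 : (0 : ℝ) ≤ (s / R) ^ (-p) := by positivity
      calc ENNReal.ofReal s * (volume {t : ℝ | t ∈ Ioo α β ∧ s < ‖deriv lam t‖}) ^ (1 / p)
          ≤ ENNReal.ofReal s *
            (ENNReal.ofReal (C * max 1 (β - α) * (s / R) ^ (-p))) ^ (1 / p) := by
            gcongr
            exact h1 s hs
        _ = ENNReal.ofReal (s * (C * max 1 (β - α) * (s / R) ^ (-p)) ^ (1 / p)) := by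
            rw [ENNReal.ofReal_rpow_of_nonneg (mul_nonneg h3 h4) hq,
              ← ENNReal.ofReal_mul hs.le]
        _ = ENNReal.ofReal (C ^ (1 / p) * max 1 ((β - α) ^ (((n : ℝ) - 1) / n)) * R) := by
            congr 1
            have e1 : ((s / R) ^ (-p)) ^ (1 / p) = (s / R)⁻¹ := by
              rw [← Real.rpow_mul (by positivity)]
              have : -p * (1 / p) = -1 := by field_simp
              rw [this, Real.rpow_neg_one]
            have e2 : (max 1 (β - α)) ^ (1 / p) = max 1 ((β - α) ^ (((n : ℝ) - 1) / n)) := by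
              rw [← hpinv]
              rcases le_total 1 (β - α) with h | h
              · rw [max_eq_right h, max_eq_right]
                exact Real.one_le_rpow h hq
              · rw [max_eq_left h, Real.one_rpow, max_eq_left]
                exact Real.rpow_le_one hba.le h hq
            rw [Real.mul_rpow h3 h4, Real.mul_rpow hC0 (by positivity), e1, e2]
            field_simp
    refine ⟨?_, hmeas, hfin _ hw, hw⟩
    rw [ae_restrict_iff' measurableSet_Ioo, ae_iff]
    refine measure_mono_null ?_ h2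
    intro t ht
    simp only [mem_ofPred_eq, Classical.not_imp] at ht
    exact ht

end Pool.Agent.Results.MP_6562b9_an.WeakTypeRoots
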